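import Pool.Agent.H20.G.R_pool_sql_team_seeded_1acbe0a2.Y684.ZL.Fld

/-!
# The choice of the parameters
-/

set_option autoImplicit false

namespace Pool.Agent.Y684.ZL

open Pool.Agent.W834.NG

/-- a complete graph with `t` vertices -/
theorem clique (m t n : ℕ) (ht : t ≤ n) (ht1 : 1 ≤ t) :
    (t - 1) * t ≤
      2 * SimpleGraph.extremalNumber n (completeBipartiteGraph (Fin (m + 1)) (Fin t)) := by
  classical
  have hno : NoK (⊤ : SimpleGraph (Fin t)) (m + 1) t := by
    rintro ⟨x, y, _, hy, hadj⟩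
    obtain ⟨j, hj⟩ := (Finite.injective_iff_surjective.1 hy) (x 0)
    have := hadj 0 j
    rw [SimpleGraph.top_adj] at this
    exact this hj.symm
  have := le_extremal (⊤ : SimpleGraph (Fin t)) (Nat.succ_pos m) ht1 hno n (by simpa using ht) t
    le_rfl (t - 1) (fun v => ⟨Finset.univ.erase v, by
      rw [Finset.card_erase_of_mem (Finset.mem_univ _), Finset.card_univ, Fintype.card_fin],
      fun w hw => by
        rw [SimpleGraph.top_adj]
        exact (Finset.ne_of_mem_erase hw).symm⟩)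
  simpa using this

theorem pow_lower (m k : ℕ) : (k + 1) ^ m + k ^ (m + 1) ≤ (k + 1) ^ (m + 1) := by
  have h1 : k ^ (m + 1) ≤ k * (k + 1) ^ m := by
    rw [pow_succ, mul_comm]
    exact Nat.mul_le_mul_left _ (Nat.pow_le_pow_left (Nat.le_succ k) m)
  have h2 : (k + 1) ^ (m + 1) = (k + 1) ^ m + k * (k + 1) ^ m := by ring
  omega

theorem pow_upper (k m : ℕ) : (k + 1) ^ (m + 1) ≤ k ^ (m + 1) + (m + 1) * (k + 1) ^ m := by
  induction m with
  | zero => simp
  | succ m ih =>
    have h1 : (k + 1) ^ (m + 1 + 1) = (k + 1) ^ (m + 1) * (k + 1) := pow_succ _ _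
    have h2 := Nat.mul_le_mul_right (k + 1) ih
    have h3 : k ^ (m + 1) ≤ (k + 1) ^ (m + 1) := Nat.pow_le_pow_left (Nat.le_succ k) _
    have h4 : (k ^ (m + 1) + (m + 1) * (k + 1) ^ m) * (k + 1) =
        k ^ (m + 1 + 1) + k ^ (m + 1) + (m + 1) * (k + 1) ^ (m + 1) := by ring
    have h5 : (m + 1 + 1) * (k + 1) ^ (m + 1) = (m + 1) * (k + 1) ^ (m + 1) + (k + 1) ^ (m + 1) := by
      ring
    omega

/-- the window length -/
theorem exists_window (m t : ℕ) (hm : 1 ≤ m) (ht : m.factorial < t) :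
    ∃ h : ℕ, 1 ≤ h ∧ m.factorial * (h ^ (m + 1) - (h - 1) ^ (m + 1)) < t ∧
      t ≤ m.factorial * (m + 1) * 2 ^ m * h ^ m ∧ h ^ m < t := by
  classical
  have hlow : ∀ h, 1 ≤ h → h ^ m ≤ h ^ (m + 1) - (h - 1) ^ (m + 1) := by
    intro h hh
    obtain ⟨k, rfl⟩ : ∃ k, h = k + 1 := ⟨h - 1, by omega⟩
    have := pow_lower m k
    rw [Nat.add_sub_cancel]
    omega
  have hf : 1 ≤ m.factorial := Nat.factorial_pos m
  set P : ℕ → Prop := fun h => m.factorial * (h ^ (m + 1) - (h - 1) ^ (m + 1)) < t with hP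
  have hP1 : P 1 := by
    show m.factorial * (1 ^ (m + 1) - (1 - 1) ^ (m + 1)) < t
    simpa using ht
  have ht1 : 1 ≤ t := by omega
  set h := Nat.findGreatest P t with hh
  have hPh : P h := Nat.findGreatest_spec ht1 hP1
  have h1 : 1 ≤ h := Nat.le_findGreatest ht1 hP1
  have hbound : ∀ k, 1 ≤ k → P k → k ^ m < t := by
    intro k hk hPk
    have a1 := hlow k hk
    have a2 : 1 * k ^ m ≤ m.factorial * (k ^ (m + 1) - (k - 1) ^ (m + 1)) := Nat.mul_le_mul hf a1
    have a3 : m.factorial * (k ^ (m + 1) - (k - 1) ^ (m + 1)) < t := hPk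
    omega
  have hht : h < t := by
    have a1 := hbound h h1 hPh
    have a2 : h ^ 1 ≤ h ^ m := Nat.pow_le_pow_right h1 hm
    rw [pow_one] at a2
    omega
  have hnot : ¬ P (h + 1) := Nat.findGreatest_is_greatest (Nat.lt_succ_self _) hht
  refine ⟨h, h1, hPh, ?_, hbound h h1 hPh⟩
  have b1 : t ≤ m.factorial * ((h + 1) ^ (m + 1) - h ^ (m + 1)) := by
    by_contra hc
    apply hnot
    show m.factorial * ((h + 1) ^ (m + 1) - (h + 1 - 1) ^ (m + 1)) < t
    rw [Nat.add_sub_cancel]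
    omega
  have b2 : (h + 1) ^ (m + 1) - h ^ (m + 1) ≤ (m + 1) * (h + 1) ^ m := by
    have := pow_upper h m
    omega
  have b3 : (h + 1) ^ m ≤ (2 * h) ^ m := Nat.pow_le_pow_left (by omega) m
  calc t ≤ m.factorial * ((h + 1) ^ (m + 1) - h ^ (m + 1)) := b1
    _ ≤ m.factorial * ((m + 1) * (2 * h) ^ m) :=
        Nat.mul_le_mul_left _ (b2.trans (Nat.mul_le_mul_left _ b3))
    _ = _ := by rw [mul_pow]; ring

/-- the size of the field -/
theorem exists_size (m h n : ℕ) (hh : 1 ≤ h) (hn : 3 * 4 ^ m ≤ n) (hn' : 2 ^ m * h ^ m ≤ n) :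
    ∃ l : ℕ, 2 ≤ l ∧ h ≤ 2 ^ l - 1 ∧ 2 ^ (m * l) * ((2 ^ l - 1) / h) ≤ n ∧
      h * n < 2 ^ (m + 1) * (2 ^ l) ^ (m + 1) := by
  classical
  set Q : ℕ → Prop := fun l => 2 ≤ l ∧ h ≤ 2 ^ l - 1 ∧ 2 ^ (m * l) * ((2 ^ l - 1) / h) ≤ n with hQ
  have hex : ∃ l, Q l := by
    by_cases h1 : h = 1
    · refine ⟨2, le_rfl, by omega, ?_⟩
      rw [h1, mul_comm m 2, pow_mul]
      norm_num
      omega
    · refine ⟨Nat.log 2 h + 1, ?_, ?_, ?_⟩
      · have : 1 ≤ Nat.log 2 h := Nat.log_pos (by norm_num) (by omega)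
        omega
      · have := Nat.lt_pow_succ_log_self (b := 2) (by norm_num) h
        rw [Nat.succ_eq_add_one] at this
        omega
      · have a1 : 2 ^ Nat.log 2 h ≤ h := Nat.pow_log_le_self 2 (by omega)
        have a2 : 2 ^ (Nat.log 2 h + 1) ≤ 2 * h := by rw [pow_succ]; omega
        have a3 : (2 ^ (Nat.log 2 h + 1) - 1) / h ≤ 1 := by
          have : (2 ^ (Nat.log 2 h + 1) - 1) / h < 2 := by
            rw [Nat.div_lt_iff_lt_mul (by omega)]
            omega
          omega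
        calc 2 ^ (m * (Nat.log 2 h + 1)) * ((2 ^ (Nat.log 2 h + 1) - 1) / h)
            ≤ (2 * h) ^ m * 1 := by
              apply Nat.mul_le_mul _ a3
              rw [mul_comm m, pow_mul]
              exact Nat.pow_le_pow_left a2 m
          _ = 2 ^ m * h ^ m := by rw [mul_one, mul_pow]
          _ ≤ n := hn'
  obtain ⟨l₀, hl₀⟩ := hex
  have hbd : ∀ l, Q l → l < n + 1 → True := fun _ _ _ => trivial
  by_cases hm : m = 0
  · -- then the sizes are still unbounded: take the largest one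
    subst hm
    have hbd0 : ∀ l, Q l → l ≤ h * (n + 1) := by
      intro l hl
      obtain ⟨h2, h3, h4⟩ := hl
      rw [zero_mul, pow_zero, one_mul] at h4
      have h5 : 2 ^ l - 1 < h * (n + 1) := by
        have := Nat.lt_mul_div_succ (2 ^ l - 1) (show 0 < h by omega)
        exact lt_of_lt_of_le this (Nat.mul_le_mul_left _ (by omega))
      have h6 : l < 2 ^ l := Nat.lt_two_pow_self
      omega
    set l := Nat.findGreatest Q (h * (n + 1)) with hl
    have hQl : Q l := Nat.findGreatest_spec (hbd0 l₀ hl₀) hl₀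
    refine ⟨l, hQl.1, hQl.2.1, hQl.2.2, ?_⟩
    have hnQ : ¬ Q (l + 1) := by
      intro hc
      have := Nat.le_findGreatest (hbd0 _ hc) hc
      omega
    have h7 : n < (2 ^ (l + 1) - 1) / h := by
      by_contra hc
      apply hnQ
      refine ⟨by have := hQl.1; omega, ?_, ?_⟩
      · have := hQl.2.1
        have : 2 ^ l ≤ 2 ^ (l + 1) := Nat.pow_le_pow_right (by norm_num) (by omega)
        omega
      · rw [zero_mul, pow_zero, one_mul]; omega
    have h8 : h * n ≤ h * ((2 ^ (l + 1) - 1) / h) := Nat.mul_le_mul_left _ h7.le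
    have h9 := Nat.mul_div_le (2 ^ (l + 1) - 1) h
    have h10 : 0 < 2 ^ (l + 1) := by positivity
    rw [zero_add, pow_one, pow_one, ← pow_succ']
    omega
  · have hbd0 : ∀ l, Q l → l ≤ n := by
      intro l hl
      obtain ⟨h2, h3, h4⟩ := hl
      have h5 : 1 ≤ (2 ^ l - 1) / h := (Nat.one_le_div_iff (by omega)).2 h3
      have h6 : l < 2 ^ l := Nat.lt_two_pow_self
      have h7 : 2 ^ l ≤ 2 ^ (m * l) := Nat.pow_le_pow_right (by norm_num)
        (Nat.le_mul_of_pos_left l (by omega))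
      have h8 : 2 ^ (m * l) * 1 ≤ 2 ^ (m * l) * ((2 ^ l - 1) / h) := Nat.mul_le_mul_left _ h5
      omega
    set l := Nat.findGreatest Q n with hl
    have hQl : Q l := Nat.findGreatest_spec (hbd0 l₀ hl₀) hl₀
    refine ⟨l, hQl.1, hQl.2.1, hQl.2.2, ?_⟩
    have hnQ : ¬ Q (l + 1) := by
      intro hc
      have := Nat.le_findGreatest (hbd0 _ hc) hc
      omega
    have h7 : n < 2 ^ (m * (l + 1)) * ((2 ^ (l + 1) - 1) / h) := by
      by_contra hc
      apply hnQ
      refine ⟨by have := hQl.1; omega, ?_, by omega⟩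
      have := hQl.2.1
      have : 2 ^ l ≤ 2 ^ (l + 1) := Nat.pow_le_pow_right (by norm_num) (by omega)
      omega
    calc h * n < h * (2 ^ (m * (l + 1)) * ((2 ^ (l + 1) - 1) / h)) :=
          Nat.mul_lt_mul_of_pos_left h7 (by omega)
      _ = 2 ^ (m * (l + 1)) * (h * ((2 ^ (l + 1) - 1) / h)) := by ring
      _ ≤ 2 ^ (m * (l + 1)) * 2 ^ (l + 1) := by
          apply Nat.mul_le_mul_left
          exact (Nat.mul_div_le _ _).trans (Nat.sub_le _ _)
      _ = 2 ^ (m + 1) * (2 ^ l) ^ (m + 1) := by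
          rw [← pow_add, ← pow_mul, ← pow_add]
          congr 1
          ring

/-- **Main theorem.** -/
theorem main (s : ℕ) (hs : 2 ≤ s) : ∃ c : ℝ, 0 < c ∧ ∀ t n : ℕ, (s - 1).factorial < t → t ≤ n →
    c * (t : ℝ) ^ (1 / (s : ℝ)) * (n : ℝ) ^ (2 - 1 / (s : ℝ)) ≤
      (SimpleGraph.extremalNumber n (completeBipartiteGraph (Fin s) (Fin t)) : ℝ) := by
  obtain ⟨m, rfl⟩ : ∃ m, s = m + 1 := ⟨s - 1, by omega⟩
  have hm : 1 ≤ m := by omega
  rw [Nat.add_sub_cancel]
  set A : ℝ := (m.factorial : ℝ) * (m + 1) * 2 ^ m with hA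
  have hA1 : 1 ≤ A := by
    have h1 : (1 : ℝ) ≤ m.factorial := by exact_mod_cast Nat.factorial_pos m
    have h2 : (1 : ℝ) ≤ (m : ℝ) + 1 := by
      have : (0 : ℝ) ≤ m := Nat.cast_nonneg m
      linarith
    have h3 : (1 : ℝ) ≤ 2 ^ m := one_le_pow₀ (by norm_num)
    have h4 : (1 : ℝ) * 1 * 1 ≤ A := by
      rw [hA]
      gcongr
    linarith
  set α : ℝ := 1 / ((m + 1 : ℕ) : ℝ) with hα
  have hm1 : (0 : ℝ) < ((m + 1 : ℕ) : ℝ) := by positivity
  have hα0 : 0 < α := by rw [hα]; positivity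
  have hα1 : α ≤ 1 := by
    rw [hα, div_le_one hm1]
    exact_mod_cast Nat.succ_le_succ (Nat.zero_le m)
  refine ⟨1 / (A * 2 ^ (2 * m + 5) * (36 * 16 ^ m)), by positivity, ?_⟩
  intro t n ht htn
  set E := SimpleGraph.extremalNumber n (completeBipartiteGraph (Fin (m + 1)) (Fin t)) with hE
  have hf : 1 ≤ m.factorial := Nat.factorial_pos m
  have ht2 : 2 ≤ t := by omega
  have htR : (0 : ℝ) < t := by exact_mod_cast (by omega : 0 < t)
  have hnR : (0 : ℝ) < n := by exact_mod_cast (by omega : 0 < n)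
  set X : ℝ := (t : ℝ) ^ α * (n : ℝ) ^ (2 - α) with hX
  have hX0 : 0 < X := by rw [hX]; positivity
  have key : X ≤ (36 * 16 ^ m) * E ∨ X ≤ (A * 2 ^ (2 * m + 5)) * E := by
    by_cases hsmall : n < 3 * 4 ^ m * t
    · left
      have h1 := clique m t n htn (by omega)
      rw [← hE] at h1
      have h2 : ((t : ℝ) - 1) * t ≤ 2 * E := by
        have : (((t - 1) * t : ℕ) : ℝ) ≤ ((2 * E : ℕ) : ℝ) := by exact_mod_cast h1
        rw [Nat.cast_mul, Nat.cast_sub (by omega), Nat.cast_mul] at this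
        simpa using this
      have h3 : (t : ℝ) ^ 2 ≤ 4 * E := by
        have : (2 : ℝ) ≤ t := by exact_mod_cast ht2
        nlinarith
      have h4 : (n : ℝ) ≤ 3 * 4 ^ m * t := by exact_mod_cast hsmall.le
      have h5 : (n : ℝ) ^ (2 - α) ≤ (3 * 4 ^ m * t) ^ (2 - α) :=
        Real.rpow_le_rpow hnR.le h4 (by linarith)
      have h6 : (3 * 4 ^ m * (t : ℝ)) ^ (2 - α) = (3 * 4 ^ m) ^ (2 - α) * (t : ℝ) ^ (2 - α) :=
        Real.mul_rpow (by positivity) htR.le
      have h7 : ((3 : ℝ) * 4 ^ m) ^ (2 - α) ≤ (3 * 4 ^ m) ^ (2 : ℝ) := by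
        apply Real.rpow_le_rpow_of_exponent_le _ (by linarith)
        have : (1 : ℝ) ≤ 4 ^ m := one_le_pow₀ (by norm_num)
        linarith
      have h8 : ((3 : ℝ) * 4 ^ m) ^ (2 : ℝ) = 9 * 16 ^ m := by
        rw [Real.rpow_two, mul_pow, ← pow_mul, mul_comm m 2, pow_mul]
        norm_num
      have h9 : (t : ℝ) ^ α * (t : ℝ) ^ (2 - α) = (t : ℝ) ^ 2 := by
        rw [← Real.rpow_add htR]
        have : α + (2 - α) = (2 : ℝ) := by ring
        rw [this, Real.rpow_two]
      calc X ≤ (t : ℝ) ^ α * ((9 * 16 ^ m) * (t : ℝ) ^ (2 - α)) := by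
            rw [hX]
            apply mul_le_mul_of_nonneg_left _ (by positivity)
            refine h5.trans ?_
            rw [h6]
            apply mul_le_mul_of_nonneg_right _ (by positivity)
            rw [← h8]
            exact h7
        _ = (9 * 16 ^ m) * (t : ℝ) ^ 2 := by rw [← h9]; ring
        _ ≤ (9 * 16 ^ m) * (4 * E) := by
            apply mul_le_mul_of_nonneg_left h3 (by positivity)
        _ = _ := by ring
    · right
      rw [not_lt] at hsmall
      obtain ⟨h, hh1, hh2, hh3, hh4⟩ := exists_window m t hm ht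
      have hn1 : 3 * 4 ^ m ≤ n := by
        refine le_trans ?_ hsmall
        exact Nat.le_mul_of_pos_right _ (by omega)
      have hn2 : 2 ^ m * h ^ m ≤ n := by
        refine le_trans ?_ hsmall
        apply Nat.mul_le_mul _ hh4.le
        calc 2 ^ m ≤ 4 ^ m := Nat.pow_le_pow_left (by norm_num) m
          _ ≤ 3 * 4 ^ m := by omega
      obtain ⟨l, hl1, hl2, hl3, hl4⟩ := exists_size m h n hh1 hn1 hn2
      set q := 2 ^ l with hq
      set B := (q - 1) / h with hB
      have hB1 : 1 ≤ B := (Nat.one_le_div_iff (by omega)).2 hl2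
      have hhB : h * B ≤ q - 1 := Nat.mul_div_le _ _
      obtain ⟨R, hR1, hR2⟩ := turan m l h B n t hm (by omega) hh1 hB1 hhB hl3 hh2
      rw [← hE] at hR2
      have hqm : 2 ^ (m * l) = q ^ m := by rw [hq, ← pow_mul, mul_comm]
      rw [hqm] at hR1 hR2
      rw [← hq] at hR1
      have hq4 : 4 ≤ q := by
        calc 4 = 2 ^ 2 := by norm_num
          _ ≤ 2 ^ l := Nat.pow_le_pow_right (by norm_num) hl1
      have hqm4 : 4 ≤ q ^ m := by
        calc 4 ≤ q ^ 1 := by rw [pow_one]; exact hq4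
          _ ≤ q ^ m := Nat.pow_le_pow_right (by omega) hm
      have h2hB : q ≤ 2 * (h * B) := by
        have a1 := Nat.lt_mul_div_succ (q - 1) (show 0 < h by omega)
        rw [← hB] at a1
        have a2 : h * (B + 1) = h * B + h := by ring
        have a3 : h * 1 ≤ h * B := Nat.mul_le_mul_left _ hB1
        omega
      have hR0 : 1 ≤ R := by
        by_contra hc
        have : R = 0 := by omega
        rw [this, zero_mul] at hR1
        omega
      have hdeg : q ^ m ≤ 4 * (h * B * R - 1) := by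
        have a1 : q * R ≤ 2 * (h * B) * R := Nat.mul_le_mul_right _ h2hB
        have a2 : q * R = R * (q - 1) + R := by
          obtain ⟨q', hq'⟩ : ∃ q', q = q' + 1 := ⟨q - 1, by omega⟩
          rw [hq', Nat.add_sub_cancel]; ring
        have a3 : 2 * (h * B) * R = 2 * (h * B * R) := by ring
        omega
      have hBq : q ≤ 2 * h * B := by
        have : 2 * h * B = 2 * (h * B) := by ring
        omega
      have hmain : q ^ m * q ^ m * q ≤ 16 * h * E := by
        have a1 : q ^ m * (q ^ m * q) ≤ (4 * (h * B * R - 1)) * (q ^ m * (2 * h * B)) :=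
          Nat.mul_le_mul hdeg (Nat.mul_le_mul_left _ hBq)
        have a2 : (4 * (h * B * R - 1)) * (q ^ m * (2 * h * B)) =
            (8 * h) * ((h * B * R - 1) * (q ^ m * B)) := by ring
        have a3 := Nat.mul_le_mul_left (8 * h) hR2
        calc q ^ m * q ^ m * q = q ^ m * (q ^ m * q) := by ring
          _ ≤ (8 * h) * ((h * B * R - 1) * (q ^ m * B)) := a1.trans a2.le
          _ ≤ (8 * h) * (2 * E) := a3
          _ = _ := by ring
      -- real numbers
      have hhR : (0 : ℝ) < h := by exact_mod_cast (by omega : 0 < h)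
      have hqR : (0 : ℝ) < q := by exact_mod_cast (by omega : 0 < q)
      have r1 : (q : ℝ) ^ (2 * m + 1) ≤ 16 * h * E := by
        have : ((q ^ m * q ^ m * q : ℕ) : ℝ) ≤ ((16 * h * E : ℕ) : ℝ) := by exact_mod_cast hmain
        push_cast at this
        calc (q : ℝ) ^ (2 * m + 1) = q ^ m * q ^ m * q := by ring
          _ ≤ _ := this
      have r2 : (h : ℝ) * n ≤ 2 ^ (m + 1) * (q : ℝ) ^ (m + 1) := by
        have : ((h * n : ℕ) : ℝ) ≤ ((2 ^ (m + 1) * q ^ (m + 1) : ℕ) : ℝ) := by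
          exact_mod_cast hl4.le
        push_cast at this
        exact this
      have hexp : ((m : ℝ) + 1) * (2 - α) = 2 * m + 1 := by
        rw [hα]
        push_cast
        field_simp
        ring
      have r3 : ((h : ℝ) * n) ^ (2 - α) ≤ (2 * (q : ℝ)) ^ (2 * m + 1) := by
        have a1 : (h : ℝ) * n ≤ (2 * (q : ℝ)) ^ (m + 1) := by rw [mul_pow]; exact r2
        have a2 := Real.rpow_le_rpow (by positivity) a1 (show 0 ≤ 2 - α by linarith)
        refine a2.trans (le_of_eq ?_)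
        rw [← Real.rpow_natCast, ← Real.rpow_mul (by positivity), ← Real.rpow_natCast]
        congr 1
        push_cast
        exact hexp
      have r4 : ((h : ℝ) * n) ^ (2 - α) = (h : ℝ) ^ (1 - α) * h * (n : ℝ) ^ (2 - α) := by
        rw [Real.mul_rpow hhR.le hnR.le]
        congr 1
        have : (2 : ℝ) - α = (1 - α) + 1 := by ring
        rw [this, Real.rpow_add hhR, Real.rpow_one]
      have r5 : (h : ℝ) ^ (1 - α) * (n : ℝ) ^ (2 - α) ≤ 2 ^ (2 * m + 5) * E := by
        have a1 : (h : ℝ) ^ (1 - α) * h * (n : ℝ) ^ (2 - α) ≤ 2 ^ (2 * m + 1) * (16 * h * E) := by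
          rw [← r4]
          refine r3.trans ?_
          rw [mul_pow]
          exact mul_le_mul_of_nonneg_left r1 (by positivity)
        have a2 : ((h : ℝ) ^ (1 - α) * (n : ℝ) ^ (2 - α)) * h ≤ (2 ^ (2 * m + 5) * E) * h := by
          calc ((h : ℝ) ^ (1 - α) * (n : ℝ) ^ (2 - α)) * h
              = (h : ℝ) ^ (1 - α) * h * (n : ℝ) ^ (2 - α) := by ring
            _ ≤ 2 ^ (2 * m + 1) * (16 * h * E) := a1
            _ = _ := by ring
        exact le_of_mul_le_mul_right a2 hhR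
      have r6 : (t : ℝ) ^ α ≤ A * (h : ℝ) ^ (1 - α) := by
        have a1 : (t : ℝ) ≤ A * (h : ℝ) ^ m := by
          have : ((t : ℕ) : ℝ) ≤ ((m.factorial * (m + 1) * 2 ^ m * h ^ m : ℕ) : ℝ) := by
            exact_mod_cast hh3
          push_cast at this
          rw [hA]
          exact this
        have a2 := Real.rpow_le_rpow htR.le a1 hα0.le
        refine a2.trans ?_
        rw [Real.mul_rpow (by positivity) (by positivity)]
        have a3 : ((h : ℝ) ^ m) ^ α = (h : ℝ) ^ (1 - α) := by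
          rw [← Real.rpow_natCast, ← Real.rpow_mul hhR.le]
          congr 1
          rw [hα]
          push_cast
          field_simp
          ring
        rw [a3]
        apply mul_le_mul_of_nonneg_right _ (by positivity)
        calc A ^ α ≤ A ^ (1 : ℝ) := Real.rpow_le_rpow_of_exponent_le hA1 hα1
          _ = A := Real.rpow_one A
      calc X = (t : ℝ) ^ α * (n : ℝ) ^ (2 - α) := hX
        _ ≤ (A * (h : ℝ) ^ (1 - α)) * (n : ℝ) ^ (2 - α) :=
            mul_le_mul_of_nonneg_right r6 (by positivity)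
        _ = A * ((h : ℝ) ^ (1 - α) * (n : ℝ) ^ (2 - α)) := by ring
        _ ≤ A * (2 ^ (2 * m + 5) * E) := mul_le_mul_of_nonneg_left r5 (by positivity)
        _ = _ := by ring
  have hE0 : (0 : ℝ) ≤ E := Nat.cast_nonneg E
  have hc1 : (1 : ℝ) ≤ A * 2 ^ (2 * m + 5) := by
    have : (1 : ℝ) ≤ 2 ^ (2 * m + 5) := one_le_pow₀ (by norm_num)
    nlinarith
  have hc2 : (1 : ℝ) ≤ 36 * 16 ^ m := by
    have : (1 : ℝ) ≤ 16 ^ m := one_le_pow₀ (by norm_num)
    linarith
  have hfin : X ≤ (A * 2 ^ (2 * m + 5) * (36 * 16 ^ m)) * E := by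
    rcases key with h1 | h1
    · calc X ≤ (36 * 16 ^ m) * E := h1
        _ = 1 * ((36 * 16 ^ m) * E) := by ring
        _ ≤ (A * 2 ^ (2 * m + 5)) * ((36 * 16 ^ m) * E) :=
            mul_le_mul_of_nonneg_right hc1 (by positivity)
        _ = _ := by ring
    · calc X ≤ (A * 2 ^ (2 * m + 5)) * E := h1
        _ = 1 * ((A * 2 ^ (2 * m + 5)) * E) := by ring
        _ ≤ (36 * 16 ^ m) * ((A * 2 ^ (2 * m + 5)) * E) :=
            mul_le_mul_of_nonneg_right hc2 (by positivity)
        _ = _ := by ring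
  have hpos : (0 : ℝ) < A * 2 ^ (2 * m + 5) * (36 * 16 ^ m) := by positivity
  rw [mul_assoc, ← hX, one_div, inv_mul_le_iff₀ hpos]
  exact hfin

end Pool.Agent.Y684.ZL
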