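import Pool.Agent.H20.G.R_pool_sql_team_seeded_1acbe0a2.Y684.ZL.Def

/-!
# The fields, and the degrees of the window norm graphs
-/

set_option autoImplicit false

namespace Pool.Agent.Y684.ZL

open Pool.Agent.W834.NG

theorem exists_field (m l : ℕ) (hm : 1 ≤ m) (hl : 1 ≤ l) :
    ∃ (K : Type) (_ : Field K) (_ : Fintype K) (_ : DecidableEq K) (φ : K →+* K) (g : K) (R : ℕ),
      Fintype.card K = 2 ^ (m * l) ∧ R * (2 ^ l - 1) + 1 = 2 ^ (m * l) ∧
      (∀ u v : ℕ, u < v → v < u + (2 ^ l - 1) → g ^ u ≠ g ^ v) ∧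
      ∀ i : ℕ, R ≤ (Finset.univ.filter fun z : K => Nm φ m z = g ^ i).card := by
  classical
  have : Fact (Nat.Prime 2) := ⟨Nat.prime_two⟩
  set a := m * l with ha
  have ha0 : a ≠ 0 := by
    have : 1 * 1 ≤ m * l := Nat.mul_le_mul hm hl
    omega
  let K := GaloisField 2 a
  have hcardK : Nat.card K = 2 ^ a := GaloisField.card 2 a ha0
  have : Fintype K := Fintype.ofFinite K
  set q := 2 ^ l with hq
  have hq2 : 2 ≤ q := by
    calc 2 = 2 ^ 1 := by norm_num
      _ ≤ 2 ^ l := Nat.pow_le_pow_right (by norm_num) hl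
  set R := ∑ j ∈ Finset.range m, q ^ j with hR
  have hqm : q ^ m = 2 ^ a := by rw [hq, ← pow_mul, mul_comm]
  have hRq : R * (q - 1) + 1 = 2 ^ a := by
    have := geom_sum_mul_add (q - 1) m
    have e : q - 1 + 1 = q := by omega
    rw [e] at this
    rw [← hqm, hR]
    exact this
  have hRpos : 0 < R := by
    rw [Nat.pos_iff_ne_zero]
    intro h0
    rw [h0, zero_mul, zero_add] at hRq
    have := Nat.one_lt_two_pow ha0
    omega
  let φ : K →+* K := iterateFrobenius K 2 l
  have hit : ∀ (j : ℕ) (x : K), φ^[j] x = x ^ (q ^ j) := by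
    intro j x
    induction j with
    | zero => simp
    | succ j ih =>
      rw [Function.iterate_succ_apply', ih]
      show iterateFrobenius K 2 l (x ^ q ^ j) = _
      rw [iterateFrobenius_def, ← pow_mul, ← pow_succ]
  have hnorm : ∀ x : K, Nm φ m x = x ^ R := by
    intro x
    unfold Nm
    rw [hR, ← Finset.prod_pow_eq_pow_sum, Finset.prod_range]
    exact Finset.prod_congr rfl fun j _ => hit j x
  obtain ⟨γ₀, hγ₀⟩ := IsCyclic.exists_monoid_generator (α := Kˣ)
  set γ : K := (γ₀ : K) with hγ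
  have hord : orderOf γ₀ = R * (q - 1) := by
    have h1 : orderOf γ₀ = Nat.card Kˣ := by
      apply orderOf_eq_card_of_forall_mem_zpowers
      intro x
      obtain ⟨u, hu⟩ := hγ₀ x
      exact ⟨u, by simpa using hu⟩
    have h2 : Nat.card Kˣ = Nat.card K - 1 := by
      rw [Nat.card_units]
    rw [h1, h2, hcardK]
    omega
  have hpow1 : γ ^ (R * (q - 1)) = 1 := by
    have := pow_orderOf_eq_one γ₀
    rw [hord] at this
    have h := congrArg Units.val this
    simpa using h
  have hmod : ∀ u v : ℕ, γ ^ u = γ ^ v → u ≡ v [MOD R * (q - 1)] := by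
    intro u v h
    have h1 : γ₀ ^ u = γ₀ ^ v := by
      apply Units.ext
      simpa using h
    rw [← hord]
    exact pow_eq_pow_iff_modEq.1 h1
  refine ⟨K, inferInstance, this, inferInstance, φ, γ ^ R, R, ?_, hRq, ?_, ?_⟩
  · rw [← Nat.card_eq_fintype_card, hcardK]
  · intro u v huv hvu h
    rw [← pow_mul, ← pow_mul] at h
    have h1 := hmod _ _ h
    have h2 : R * v = R * u + R * (v - u) := by
      rw [← Nat.mul_add]; congr 1; omega
    have h3 : R * (q - 1) ∣ R * (v - u) := by
      have := (Nat.modEq_iff_dvd' (Nat.mul_le_mul_left R huv.le)).1 h1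
      rwa [← Nat.mul_sub] at this
    have h4 := Nat.le_of_dvd (Nat.mul_pos hRpos (by omega)) h3
    have h5 := Nat.le_of_mul_le_mul_left h4 hRpos
    omega
  · intro i
    have hinj : Set.InjOn (fun v : ℕ => γ ^ (i + (q - 1) * v)) (Finset.range R : Finset ℕ) := by
      intro u hu v hv huv
      have hu' : u < R := by simpa using hu
      have hv' : v < R := by simpa using hv
      have h1 := hmod _ _ huv
      have h2 : (q - 1) * u ≡ (q - 1) * v [MOD R * (q - 1)] := Nat.ModEq.add_left_cancel' i h1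
      have h3 : (q - 1) * u < R * (q - 1) := by
        rw [mul_comm]; exact Nat.mul_lt_mul_of_pos_right hu' (by omega)
      have h4 : (q - 1) * v < R * (q - 1) := by
        rw [mul_comm]; exact Nat.mul_lt_mul_of_pos_right hv' (by omega)
      have h5 := Nat.ModEq.eq_of_lt_of_lt h2 h3 h4
      exact Nat.eq_of_mul_eq_mul_left (by omega) h5
    have hc : ((Finset.range R).image fun v : ℕ => γ ^ (i + (q - 1) * v)).card = R := by
      rw [Finset.card_image_of_injOn hinj, Finset.card_range]
    rw [← hc]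
    apply Finset.card_le_card
    intro z hz
    obtain ⟨v, _, rfl⟩ := Finset.mem_image.1 hz
    rw [hc, Finset.mem_filter]
    refine ⟨Finset.mem_univ _, ?_⟩
    rw [hnorm, ← pow_mul, ← pow_mul]
    have e : (i + (q - 1) * v) * R = R * i + (R * (q - 1)) * v := by ring
    rw [e, pow_add, pow_mul γ (R * (q - 1)), hpow1, one_pow, mul_one]

theorem WG_deg {K : Type} [Field K] [Fintype K] [DecidableEq K] (φ : K →+* K) (m : ℕ) (g : K)
    (h B R : ℕ) (hg : ∀ u v : ℕ, u < v → v < u + h * B → g ^ u ≠ g ^ v) (hB : 1 ≤ B)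
    (hR : ∀ i : ℕ, R ≤ (Finset.univ.filter fun z : K => Nm φ m z = g ^ i).card)
    (v : K × Fin B) : ∃ s : Finset (K × Fin B), h * B * R - 1 ≤ s.card ∧
      ∀ w ∈ s, (WG φ m g h B).Adj v w := by
  classical
  let T : Finset ((Fin B × Fin h) × K) := Finset.univ.filter fun p =>
    Nm φ m p.2 = g ^ (h * ((v.2 : ℕ) + p.1.1) + p.1.2)
  have hT : h * B * R ≤ T.card := by
    have h1 : T.card = ∑ p : Fin B × Fin h, (Finset.univ.filter fun z : K =>
        Nm φ m z = g ^ (h * ((v.2 : ℕ) + p.1) + p.2)).card := by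
      rw [Finset.card_eq_sum_card_fiberwise (f := Prod.fst) (t := Finset.univ)
        (fun _ _ => Finset.mem_coe.2 (Finset.mem_univ _))]
      refine Finset.sum_congr rfl fun p _ => ?_
      refine Finset.card_bij (fun x _ => x.2) ?_ ?_ ?_
      · intro x hx
        rw [Finset.mem_filter] at hx
        rw [Finset.mem_filter]
        refine ⟨Finset.mem_univ _, ?_⟩
        have := (Finset.mem_filter.1 hx.1).2
        rw [hx.2] at this
        exact this
      · intro x hx y hy hxy
        rw [Finset.mem_filter] at hx hy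
        exact Prod.ext (hx.2.trans hy.2.symm) hxy
      · intro z hz
        refine ⟨(p, z), ?_, rfl⟩
        rw [Finset.mem_filter]
        exact ⟨Finset.mem_filter.2 ⟨Finset.mem_univ _, (Finset.mem_filter.1 hz).2⟩, rfl⟩
    rw [h1]
    calc h * B * R = ∑ _p : Fin B × Fin h, R := by
          rw [Finset.sum_const, Finset.card_univ, Fintype.card_prod, Fintype.card_fin,
            Fintype.card_fin, smul_eq_mul]
          ring
      _ ≤ _ := Finset.sum_le_sum fun p _ => hR _
  let f : (Fin B × Fin h) × K → K × Fin B := fun p => (p.2 - v.1, p.1.1)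
  have hf : Set.InjOn f T := by
    intro x hx y hy hxy
    have hx' := (Finset.mem_filter.1 (Finset.mem_coe.1 hx)).2
    have hy' := (Finset.mem_filter.1 (Finset.mem_coe.1 hy)).2
    have h1 : x.2 = y.2 := by
      have := congrArg Prod.fst hxy
      exact sub_left_injective this
    have h2 : x.1.1 = y.1.1 := congrArg Prod.snd hxy
    rw [h1, hy', h2] at hx'
    have hhB : h ≤ h * B := Nat.le_mul_of_pos_right h hB
    have h3 : (x.1.2 : ℕ) = y.1.2 := by
      have a1 := x.1.2.2
      have a2 := y.1.2.2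
      rcases lt_trichotomy (x.1.2 : ℕ) (y.1.2 : ℕ) with hlt | heq | hgt
      · exact absurd hx'.symm (hg _ _ (by omega) (by omega))
      · exact heq
      · exact absurd hx' (hg _ _ (by omega) (by omega))
    exact Prod.ext (Prod.ext h2 (Fin.ext h3)) h1
  refine ⟨(T.image f).erase v, ?_, ?_⟩
  · have h1 : T.card = (T.image f).card := (Finset.card_image_of_injOn hf).symm
    have h2 := Finset.pred_card_le_card_erase (s := T.image f) (a := v)
    omega
  · intro w hw
    obtain ⟨hne, hw⟩ := Finset.mem_erase.1 hw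
    obtain ⟨p, hp, rfl⟩ := Finset.mem_image.1 hw
    have hp' := (Finset.mem_filter.1 hp).2
    refine ⟨hne.symm, p.1.2, p.1.2.2, ?_⟩
    show Nm φ m (v.1 + (p.2 - v.1)) = g ^ (h * ((v.2 : ℕ) + p.1.1) + p.1.2)
    rw [add_sub_cancel]
    exact hp'

/-- lower bound for the Turán numbers -/
theorem turan (m l h B n t : ℕ) (hm : 1 ≤ m) (hl : 1 ≤ l) (hh : 1 ≤ h) (hB : 1 ≤ B)
    (hhB : h * B ≤ 2 ^ l - 1) (hn : 2 ^ (m * l) * B ≤ n)
    (ht : m.factorial * (h ^ (m + 1) - (h - 1) ^ (m + 1)) < t) :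
    ∃ R : ℕ, R * (2 ^ l - 1) + 1 = 2 ^ (m * l) ∧
      (h * B * R - 1) * (2 ^ (m * l) * B) ≤
        2 * SimpleGraph.extremalNumber n (completeBipartiteGraph (Fin (m + 1)) (Fin t)) := by
  classical
  obtain ⟨K, _, _, _, φ, g, R, hK, hR, hg, hN⟩ := exists_field m l hm hl
  refine ⟨R, hR, ?_⟩
  have hg' : ∀ u v : ℕ, u < v → v < u + h * B → g ^ u ≠ g ^ v := fun u v h1 h2 =>
    hg u v h1 (by omega)
  have hcard : Fintype.card (K × Fin B) = 2 ^ (m * l) * B := by
    rw [Fintype.card_prod, hK, Fintype.card_fin]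
  have := le_extremal (WG φ m g h B) (s := m + 1)
    (r := m.factorial * (h ^ (m + 1) - (h - 1) ^ (m + 1)) + 1) (Nat.succ_pos _) (Nat.succ_pos _)
    (WG_noK φ m g h B hm hh hg') n (by rw [hcard]; exact hn) t ht (h * B * R - 1)
    (fun v => WG_deg φ m g h B R hg' hB hN v)
  rwa [hcard] at this

end Pool.Agent.Y684.ZL
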